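import Pool.Agent.Q206.LU.Basic

/-!
# The two five-qubit stabilizer codes are not locally unitarily equivalent
-/

namespace Pool.Agent.Results.MP_7af562_mp.FiveQubitPair

open Pool.Agent.Q206.LU

/-- Generators `ZZZZI`, `XXIIX`, `IIXXX` of `S_A`. -/
def gA : Fin 3 → Fin 5 → Fin 4 := ![![3, 3, 3, 3, 0], ![1, 1, 0, 0, 1], ![0, 0, 1, 1, 1]]

/-- Generators `ZZIZX`, `XIZXI`, `IXXYI` of `S_B`. -/
def gB : Fin 3 → Fin 5 → Fin 4 := ![![3, 3, 0, 3, 1], ![1, 0, 3, 1, 0], ![0, 1, 1, 2, 0]]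

/-- Auxiliary Pauli strings on the complements of the three element sets. -/
def tab : List (Finset (Fin 5) × (Fin 3 → Fin 5 → Fin 4)) :=
  [({0, 1, 2}, ![![0, 0, 0, 0, 2], ![0, 0, 0, 2, 2], ![0, 0, 0, 1, 2]]),
   ({0, 1, 3}, ![![0, 0, 0, 0, 2], ![0, 0, 1, 0, 0], ![0, 0, 3, 0, 0]]),
   ({0, 1, 4}, ![![0, 0, 1, 2, 0], ![0, 0, 1, 0, 0], ![0, 0, 1, 3, 0]]),
   ({0, 2, 4}, ![![0, 1, 0, 0, 0], ![0, 1, 0, 2, 0], ![0, 1, 0, 1, 0]]),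
   ({0, 3, 4}, ![![0, 1, 0, 0, 0], ![0, 0, 1, 0, 0], ![0, 0, 3, 0, 0]]),
   ({1, 2, 4}, ![![1, 0, 0, 0, 0], ![1, 0, 0, 2, 0], ![1, 0, 0, 1, 0]]),
   ({1, 3, 4}, ![![1, 0, 0, 0, 0], ![0, 0, 1, 0, 0], ![0, 0, 3, 0, 0]])]

/-- Unfolded form of `sign`. -/
def ssig (s t : Fin 5 → Fin 4) : ℤ := sg (s 0) (t 0) * (sg (s 1) (t 1) * (sg (s 2) (t 2) *
    (sg (s 3) (t 3) * sg (s 4) (t 4))))

lemma sign5 (s t : Fin 5 → Fin 4) : sign s t = ssig s t := by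
  rw [sign, Fin.prod_univ_five, ssig]; ring

lemma tab_zero : ∀ e ∈ tab, ∀ k : Fin 3, ∀ i : Fin 5, i ∈ e.1 → e.2 k i = 0 := by
  unfold tab
  simp only [List.mem_cons, List.not_mem_nil, or_false, forall_eq_or_imp, forall_eq]
  refine ⟨?_, ?_, ?_, ?_, ?_, ?_, ?_⟩ <;> decide

lemma tab_sign : ∀ e ∈ tab, ∀ i j, sign (e.2 i) (gB j) = if i = j then -1 else 1 := by
  unfold tab
  simp only [List.mem_cons, List.not_mem_nil, or_false, forall_eq_or_imp, forall_eq, sign5]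
  refine ⟨?_, ?_, ?_, ?_, ?_, ?_, ?_⟩ <;> decide +kernel

lemma tab_ok : ∀ e ∈ tab, (∀ k, ∀ i ∈ e.1, e.2 k i = 0) ∧
    ∀ i j, sign (e.2 i) (gB j) = if i = j then -1 else 1 :=
  fun e he => ⟨fun k i hi => tab_zero e he k i hi, tab_sign e he⟩

lemma tab_all : ∀ ω : Finset (Fin 5), ω.card = 3 → ¬ ({2, 3} ⊆ ω) → ∃ e ∈ tab, e.1 = ω := by
  decide +kernel

lemma gB_comm : ∀ i j, sign (gB i) (gB j) = 1 := by decide +kernel

lemma excl (ω : Finset (Fin 5)) (hω : ω.card = 3) (M : Op 5) (hM : Supp ω M) (h1 : M ≠ 1)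
    (hfix : ∀ ψ ∈ codeSpace gB, M.mulVec ψ = ψ) : {2, 3} ⊆ ω := by
  by_contra h
  obtain ⟨e, he, rfl⟩ := tab_all ω hω h
  obtain ⟨h2, h3⟩ := tab_ok e he
  exact h1 (eq_one_of_fix gB e.2 gB_comm h3 e.1 h2 M hM hfix)

/-- **Theorem** (answer to Q1). `Q(S_A)` and `Q(S_B)` are not locally unitarily equivalent. -/
theorem result : ¬ LUEquiv (codeSpace gA) (codeSpace gB) := by
  intro h
  obtain ⟨π, hπ⟩ := transport h
  obtain ⟨M1, a1, a2, a3⟩ := hπ {0, 1, 4} (pauli ![1, 1, 0, 0, 1])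
    (supp_pauli _ _ (by decide)) (pauli_ne_one _ ⟨![3, 0, 0, 0, 0], by decide⟩)
    (fun ψ hψ => hψ 1)
  obtain ⟨M2, b1, b2, b3⟩ := hπ {2, 3, 4} (pauli ![0, 0, 1, 1, 1])
    (supp_pauli _ _ (by decide)) (pauli_ne_one _ ⟨![0, 0, 3, 0, 0], by decide⟩)
    (fun ψ hψ => hψ 2)
  have c1 := excl _ (by rw [Finset.card_map]; decide) M1 a1 a2 a3
  have c2 := excl _ (by rw [Finset.card_map]; decide) M2 b1 b2 b3
  have c3 := Finset.card_le_card (Finset.subset_inter c1 c2)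
  rw [← Finset.map_inter, Finset.card_map] at c3
  revert c3
  decide

end Pool.Agent.Results.MP_7af562_mp.FiveQubitPair
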